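import Pool.Agent.BEN.StmtsA
import Pool.Agent.Helper62_BEF.LDX

/-!
# Row LDN of squad BEN (problem MP_be01ff_an): bounds of the derivatives of the approximate solution
-/

set_option autoImplicit false

namespace Pool.Agent.BEN.H11

open Set Filter Topology MeasureTheory
open scoped InnerProductSpace
open Pool.Agent.BE01 Pool.Agent.BEF Pool.Agent.BEN

noncomputable section

/-- One of the four waves. -/
def Wave {X : Type} [NormedCommRing X] [NormedAlgebra ℝ X] {m : ℕ} (φ : Fin m → X)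
    (w : ℝ → (Fin m ⊕ Fin m → ℝ) → X) : Prop :=
  w = qx φ ∨ w = px φ ∨ w = -qx φ ∨ w = -px φ

theorem dp_neg {κ X : Type} [NormedAddCommGroup X] [NormedSpace ℝ X] (w : ℝ → (κ → ℝ) → X) :
    dp (-w) = -dp w := by
  funext ψ z
  show deriv (fun s => -(w s z)) ψ = -(deriv (fun s => w s z) ψ)
  exact deriv.fun_neg

/-- Row LDN. -/
theorem ldn (gli : GliStmt) (gdv : GdvStmt) (dfl : DflStmt) (gbd : GbdStmt) (qpx : QpxStmt) :
    LdnStmt := by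
  intro X H _ _ _ _ W m p s a0 ω φ d F P q R hp hω hEv hA
  obtain ⟨hq1, hp1, hdq, hdp, -, -, hbd, -⟩ := qpx X H W m φ F
  set B : ℝ := ∑ i, ‖φ i‖ with hB
  have hwave : ∀ w, Wave φ w → w ∈ HG (Fin m ⊕ Fin m) X 1 ∧ Wave φ (dp w) ∧
      ∀ ψ z, ‖w ψ z‖ ≤ 2 * B * ‖z‖ := by
    intro w hw
    rcases hw with rfl | rfl | rfl | rfl
    · refine ⟨hq1, ?_, fun ψ z => (hbd ψ z).1⟩
      rw [hdq]
      exact Or.inr (Or.inl rfl)
    · refine ⟨hp1, ?_, fun ψ z => (hbd ψ z).2⟩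
      rw [hdp]
      exact Or.inr (Or.inr (Or.inl rfl))
    · refine ⟨Submodule.neg_mem _ hq1, ?_, fun ψ z => ?_⟩
      · rw [dp_neg, hdq]
        exact Or.inr (Or.inr (Or.inr rfl))
      · show ‖-(qx φ ψ z)‖ ≤ 2 * B * ‖z‖
        rw [norm_neg]
        exact (hbd ψ z).1
    · refine ⟨Submodule.neg_mem _ hp1, ?_, fun ψ z => ?_⟩
      · rw [dp_neg, hdp, neg_neg]
        exact Or.inl rfl
      · show ‖-(px φ ψ z)‖ ≤ 2 * B * ‖z‖
        rw [norm_neg]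
        exact (hbd ψ z).2
  -- the decomposition of `P`
  have hSq : ∀ ψ z, W.SX ((ω ^ 2) • qx φ ψ z) = qx φ ψ z := by
    intro ψ z
    unfold qx
    rw [map_smul, map_sum, Finset.smul_sum]
    refine Finset.sum_congr rfl fun i _ => ?_
    rw [map_smul, smul_comm, hEv.2 i]
  obtain ⟨q', hq', hqe⟩ := hA.q_eq
  have hPe : P = (fun ψ z => ((ω ^ 0) • ContinuousLinearMap.id ℝ X) (qx φ ψ z)) +
      (fun ψ z => W.SX (q' ψ z)) := by
    funext ψ z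
    show P ψ z = ((ω ^ 0) • ContinuousLinearMap.id ℝ X) (qx φ ψ z) + W.SX (q' ψ z)
    rw [hA.P_eq, hqe, map_add, hSq, pow_zero, one_smul]
    rfl
  have hE0 : (fun ψ z => W.SX (q' ψ z)) ∈ GE (Fin m ⊕ Fin m) X 3 :=
    (gli (Fin m ⊕ Fin m) X X W.SX 3 q').2.1 hq'
  have hind : ∀ j : ℕ, ∃ w, Wave φ w ∧ ∃ E ∈ GE (Fin m ⊕ Fin m) X 3,
      (DF ω F)^[j] P = (fun ψ z => ((ω ^ j) • ContinuousLinearMap.id ℝ X) (w ψ z)) + E := by
    intro j
    induction j with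
    | zero => exact ⟨qx φ, Or.inl rfl, _, hE0, hPe⟩
    | succ j ih =>
      obtain ⟨w, hw, E, hE, he⟩ := ih
      obtain ⟨hw1, hw2, -⟩ := hwave w hw
      obtain ⟨E', hE', h1⟩ := Pool.Agent.BEF.H62.step gli gdv dfl (ContinuousLinearMap.id ℝ X) p hp
        ω (ω ^ j) F hA.F_mem w (dp w) hw1 rfl E hE
      refine ⟨dp w, hw2, E', hE', ?_⟩
      rw [Function.iterate_succ_apply', he, h1]
      have e1 : ω * ω ^ j = ω ^ (j + 1) := (pow_succ' ω j).symm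
      rw [e1]
  have hC : ∀ j : ℕ, ∃ C : ℝ, 0 ≤ C ∧ ∀ ψ z, ‖z‖ ≤ 1 →
      ‖((DF ω F)^[j + 1] P) ψ z‖ ≤ 2 * ω ^ (j + 1) * B * ‖z‖ + C * ‖z‖ ^ 2 := by
    intro j
    obtain ⟨w, hw, E, hE, he⟩ := hind (j + 1)
    obtain ⟨C, hC0, hC⟩ := gbd (Fin m ⊕ Fin m) X 3 E hE
    refine ⟨C, hC0, ?_⟩
    intro ψ z hz
    rw [he]
    show ‖((ω ^ (j + 1)) • ContinuousLinearMap.id ℝ X) (w ψ z) + E ψ z‖ ≤ _
    have hz3 : ‖z‖ ^ 3 ≤ ‖z‖ ^ 2 := pow_le_pow_of_le_one (norm_nonneg _) hz (by norm_num)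
    have k1 : ‖((ω ^ (j + 1)) • ContinuousLinearMap.id ℝ X) (w ψ z)‖ ≤
        2 * ω ^ (j + 1) * B * ‖z‖ := by
      rw [ContinuousLinearMap.smul_apply, norm_smul, Real.norm_eq_abs,
        abs_of_nonneg (pow_nonneg hω.le _)]
      show ω ^ (j + 1) * ‖w ψ z‖ ≤ _
      calc ω ^ (j + 1) * ‖w ψ z‖ ≤ ω ^ (j + 1) * (2 * B * ‖z‖) :=
            mul_le_mul_of_nonneg_left ((hwave w hw).2.2 ψ z) (pow_nonneg hω.le _)
        _ = 2 * ω ^ (j + 1) * B * ‖z‖ := by ring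
    have k2 : ‖E ψ z‖ ≤ C * ‖z‖ ^ 2 :=
      (hC ψ z hz).trans (mul_le_mul_of_nonneg_left hz3 hC0)
    exact (norm_add_le _ _).trans (add_le_add k1 k2)
  choose C hC0 hC1 using hC
  refine ⟨∑ j ∈ Finset.range (s + 1), C j, Finset.sum_nonneg fun j _ => hC0 j, ?_⟩
  intro j hj ψ z hz
  have h1 : C j ≤ ∑ j ∈ Finset.range (s + 1), C j :=
    Finset.single_le_sum (f := C) (fun j _ => hC0 j) (Finset.mem_range.2 (by omega))
  have h2 : C j * ‖z‖ ^ 2 ≤ (∑ j ∈ Finset.range (s + 1), C j) * ‖z‖ ^ 2 :=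
    mul_le_mul_of_nonneg_right h1 (by positivity)
  exact (hC1 j ψ z hz).trans (add_le_add le_rfl h2)

end

end Pool.Agent.BEN.H11
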